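import Pool.Agent.W989.TN.Stm

set_option autoImplicit false

/-!
# Project TN, part MS: products, submatrices and scalings of sparse plus low rank matrices
-/

namespace Pool.Agent.W611.TN.MS

open Matrix Finset Pool.Agent.W989.TN

lemma supp_mul {m : Type} [Fintype m] (S S' : Matrix m m ℂ) (x : m) {ρ ρ' : ℝ} (h0 : 0 ≤ ρ')
    (hrow : (({z | S x z ≠ 0} : Set m).ncard : ℝ) ≤ ρ)
    (hrow' : ∀ z, (({y | S' z y ≠ 0} : Set m).ncard : ℝ) ≤ ρ') :
    (({y | (S * S') x y ≠ 0} : Set m).ncard : ℝ) ≤ ρ * ρ' := by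
  classical
  set F : Finset m := Finset.univ.filter (fun z => S x z ≠ 0) with hF
  set G : m → Finset m := fun z => Finset.univ.filter (fun y => S' z y ≠ 0) with hG
  have hFc : (({z | S x z ≠ 0} : Set m).ncard) = F.card := by
    rw [← Set.ncard_coe_finset]
    congr 1
    ext z; simp [hF]
  have hGc : ∀ z, (({y | S' z y ≠ 0} : Set m).ncard) = (G z).card := by
    intro z
    rw [← Set.ncard_coe_finset]
    congr 1
    ext y; simp [hG]
  have hsub : ({y | (S * S') x y ≠ 0} : Set m) ⊆ ((F.biUnion G : Finset m) : Set m) := by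
    intro y hy
    by_contra hny
    apply hy
    rw [Matrix.mul_apply]
    apply Finset.sum_eq_zero
    intro z _
    by_cases hz : S x z = 0
    · rw [hz, zero_mul]
    · by_cases hz' : S' z y = 0
      · rw [hz', mul_zero]
      · exfalso
        apply hny
        rw [Finset.mem_coe, Finset.mem_biUnion]
        exact ⟨z, by simp [hF, hz], by simp [hG, hz']⟩
  have h1 : (({y | (S * S') x y ≠ 0} : Set m).ncard) ≤ (F.biUnion G).card := by
    rw [← Set.ncard_coe_finset]
    exact Set.ncard_le_ncard hsub (Finset.finite_toSet _)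
  have h2 : (F.biUnion G).card ≤ ∑ z ∈ F, (G z).card := Finset.card_biUnion_le
  calc (({y | (S * S') x y ≠ 0} : Set m).ncard : ℝ) ≤ ((∑ z ∈ F, (G z).card : ℕ) : ℝ) := by
        exact_mod_cast h1.trans h2
    _ = ∑ z ∈ F, ((G z).card : ℝ) := by push_cast; rfl
    _ ≤ ∑ _z ∈ F, ρ' := Finset.sum_le_sum fun z _ => by rw [← hGc]; exact hrow' z
    _ = (F.card : ℝ) * ρ' := by rw [Finset.sum_const, nsmul_eq_mul]
    _ ≤ ρ * ρ' := by
        apply mul_le_mul_of_nonneg_right _ h0
        rw [← hFc]; exact hrow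

lemma rank_add_le'' {m : Type} [Fintype m] (A B : Matrix m m ℂ) :
    (A + B).rank ≤ A.rank + B.rank := by
  classical
  rw [Matrix.rank, Matrix.rank, Matrix.rank, Matrix.mulVecLin_add]
  exact (Submodule.finrank_mono (LinearMap.range_add_le _ _)).trans
    (Submodule.finrank_add_le_finrank_add_finrank _ _)

theorem t_MUL : MUL := by
  intro m _ ρ ρ' r r' T T' hρ hρ' hS hS'
  obtain ⟨S, hr, hrow, hcol⟩ := hS
  obtain ⟨S', hr', hrow', hcol'⟩ := hS'
  classical
  refine ⟨S * S', ?_, ?_, ?_⟩
  · have e : T * T' - S * S' = (T - S) * T' + S * (T' - S') := by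
      rw [Matrix.sub_mul, Matrix.mul_sub]; abel
    rw [e]
    have h1 : ((T - S) * T' + S * (T' - S')).rank ≤ ((T - S) * T').rank + (S * (T' - S')).rank :=
      rank_add_le'' _ _
    have h2 : ((T - S) * T').rank ≤ (T - S).rank := Matrix.rank_mul_le_left _ _
    have h3 : (S * (T' - S')).rank ≤ (T' - S').rank := Matrix.rank_mul_le_right _ _
    have h4 : (((T - S) * T' + S * (T' - S')).rank : ℝ) ≤ ((T - S).rank : ℝ) + (T' - S').rank := by
      exact_mod_cast h1.trans (add_le_add h2 h3)
    linarith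
  · intro x
    exact supp_mul S S' x hρ' (hrow x) hrow'
  · intro y
    have h := supp_mul (S'ᵀ) (Sᵀ) y (ρ := ρ') (ρ' := ρ) hρ (by simpa using hcol' y)
      (by simpa using hcol)
    rw [mul_comm ρ ρ']
    have e : ({x | (S * S') x y ≠ 0} : Set m) = {x | (S'ᵀ * Sᵀ) y x ≠ 0} := by
      ext x
      rw [← Matrix.transpose_mul]
      rfl
    rw [e]
    exact h

lemma rank_sub_le {m X : Type} [Fintype m] [Fintype X] (M : Matrix m m ℂ) (φ ψ : X → m) :
    (M.submatrix φ ψ).rank ≤ M.rank := by
  classical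
  have e : M.submatrix φ ψ =
      ((1 : Matrix m m ℂ).submatrix φ id) * (M * ((1 : Matrix m m ℂ).submatrix id ψ)) := by
    ext i j
    simp [Matrix.mul_apply, Matrix.one_apply]
  rw [e]
  exact (Matrix.rank_mul_le_right _ _).trans (Matrix.rank_mul_le_left _ _)

theorem t_SUB : SUB := by
  intro m X _ _ ρ r T φ ψ hφ hψ hS
  obtain ⟨S, hr, hrow, hcol⟩ := hS
  refine ⟨S.submatrix φ ψ, ?_, ?_, ?_⟩
  · have e : T.submatrix φ ψ - S.submatrix φ ψ = (T - S).submatrix φ ψ := by
      ext i j; rfl
    rw [e]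
    have := rank_sub_le (T - S) φ ψ
    have h : (((T - S).submatrix φ ψ).rank : ℝ) ≤ (T - S).rank := by exact_mod_cast this
    exact h.trans hr
  · intro x
    refine le_trans ?_ (hrow (φ x))
    have : ({y | S.submatrix φ ψ x y ≠ 0} : Set X).ncard ≤ ({y | S (φ x) y ≠ 0} : Set m).ncard :=
      Set.ncard_le_ncard_of_injOn ψ (fun y hy => hy) hψ.injOn (Set.toFinite _)
    exact_mod_cast this
  · intro y
    refine le_trans ?_ (hcol (ψ y))
    have : ({x | S.submatrix φ ψ x y ≠ 0} : Set X).ncard ≤ ({x | S x (ψ y) ≠ 0} : Set m).ncard :=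
      Set.ncard_le_ncard_of_injOn φ (fun x hx => hx) hφ.injOn (Set.toFinite _)
    exact_mod_cast this

theorem t_SCA : SCA := by
  intro m _ ρ r T a b hS
  obtain ⟨S, hr, hrow, hcol⟩ := hS
  classical
  refine ⟨Matrix.of fun x y => a x * S x y * b y, ?_, ?_, ?_⟩
  · have e : (Matrix.of fun x y => a x * T x y * b y) - (Matrix.of fun x y => a x * S x y * b y) =
        Matrix.diagonal a * ((T - S) * Matrix.diagonal b) := by
      ext x y
      rw [Matrix.diagonal_mul, Matrix.mul_diagonal]
      simp only [Matrix.sub_apply, Matrix.of_apply]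
      ring
    rw [e]
    have h1 : (Matrix.diagonal a * ((T - S) * Matrix.diagonal b)).rank ≤ (T - S).rank :=
      (Matrix.rank_mul_le_right _ _).trans (Matrix.rank_mul_le_left _ _)
    have h : ((Matrix.diagonal a * ((T - S) * Matrix.diagonal b)).rank : ℝ) ≤ (T - S).rank := by
      exact_mod_cast h1
    exact h.trans hr
  · intro x
    refine le_trans ?_ (hrow x)
    have : ({y | (Matrix.of fun x y => a x * S x y * b y) x y ≠ 0} : Set m).ncard ≤
        ({y | S x y ≠ 0} : Set m).ncard := by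
      apply Set.ncard_le_ncard _ (Set.toFinite _)
      intro y hy h0
      apply hy
      simp [h0]
    exact_mod_cast this
  · intro y
    refine le_trans ?_ (hcol y)
    have : ({x | (Matrix.of fun x y => a x * S x y * b y) x y ≠ 0} : Set m).ncard ≤
        ({x | S x y ≠ 0} : Set m).ncard := by
      apply Set.ncard_le_ncard _ (Set.toFinite _)
      intro x hx h0
      apply hx
      simp [h0]
    exact_mod_cast this

end Pool.Agent.W611.TN.MS
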